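import Pool.Agent.AddDes.Design

set_option linter.all false

namespace Pool.Agent.Results.MP_9f4ef4_co.Existence

/-- There is a strictly additive 2-(15625,10,1) design on the group `(ℤ/5)^6`:
a set of zero-sum 10-subsets such that any two distinct points lie in exactly one of them. -/
theorem result : ∃ 𝓑 : Set (Finset (Fin 6 → ZMod 5)),
    (∀ B ∈ 𝓑, B.card = 10 ∧ ∑ x ∈ B, x = 0) ∧
    ∀ x y : Fin 6 → ZMod 5, x ≠ y → ∃! B : Finset (Fin 6 → ZMod 5), B ∈ 𝓑 ∧ x ∈ B ∧ y ∈ B := by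
  refine ⟨Pool.Agent.AddDes.blocks, fun B hB => ⟨Pool.Agent.AddDes.block_card hB,
    Pool.Agent.AddDes.block_sum hB⟩, fun x y hxy => ?_⟩
  refine ⟨_, Pool.Agent.AddDes.blocks_exist hxy, ?_⟩
  rintro B ⟨hB, hx, hy⟩
  exact Pool.Agent.AddDes.blocks_unique hxy hB hx hy

end Pool.Agent.Results.MP_9f4ef4_co.Existence
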